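import Pool.Agent.helper17.EXC.Spec

set_option autoImplicit false

open Finset

namespace Pool.Agent.EXC

theorem COL_br {n : ℕ} (C : Matrix (Fin n) (Fin n) ℤ) [IsC C] {F : Type} [Field F] {β γ : Fin n → ℤ}
    (hβ : ip C β β = 2) (hγ : ip C γ γ = 2) (h : 0 ≤ ip C β γ) : br C (E C β) (E C γ) = (0 : Lm C F) := by
  have h1 : γ ≠ -β := by
    rintro rfl
    rw [ip_neg_right, hβ] at h
    omega
  have h2 : ip C (β + γ) (β + γ) ≠ 2 := by
    intro e
    have := (add_root_iff hβ hγ).1 e
    omega
  rw [br_E_E C hβ hγ, if_neg h1, E_eq_zero C h2]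
  simp

theorem COL_fm {n : ℕ} (C : Matrix (Fin n) (Fin n) ℤ) [IsC C] {F : Type} [Field F] {β γ : Fin n → ℤ}
    (hβ : ip C β β = 2) (hγ : ip C γ γ = 2) (h : 0 ≤ ip C β γ) : fm C (E C β) (E C γ : Lm C F) = 0 := by
  have h1 : γ ≠ -β := by
    rintro rfl
    rw [ip_neg_right, hβ] at h
    omega
  rw [fm_E_E C hβ hγ, if_neg h1]

theorem COL_bb {n : ℕ} (C : Matrix (Fin n) (Fin n) ℤ) [IsC C] {F : Type} [Field F] {β γ : Fin n → ℤ}
    (hβ : ip C β β = 2) (hγ : ip C γ γ = 2) (h : ip C β γ = 1) (v : Lm C F) :
    br C (E C β) (br C (E C γ) v) = fm C (E C β) v • E C γ + fm C (E C γ) v • E C β := by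
  have hne : β ≠ γ := by
    rintro rfl
    omega
  have h0 : ip C (0 : Fin n → ℤ) 0 ≠ 2 := by simp
  refine Lm_ind C (P := fun v => br C (E C β) (br C (E C γ) v) = fm C (E C β) v • E C γ + fm C (E C γ) v • E C β)
    ?_ ?_ ?_ ?_ v
  · intro x y hx hy
    rw [br_add_right, br_add_right, hx, hy, fm_add_right, fm_add_right, add_smul, add_smul]
    abel
  · intro c x hx
    rw [br_smul_right, br_smul_right, hx, fm_smul_right, fm_smul_right, smul_add, smul_smul, smul_smul]
  · intro δ hδ
    rw [fm_E_E C hβ hδ, fm_E_E C hγ hδ]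
    by_cases h1 : δ = -γ
    · have h2 : δ ≠ -β := by
        intro e
        apply hne
        rw [h1] at e
        exact (neg_injective e).symm
      rw [if_neg h2, if_pos h1, zero_smul, zero_add, one_smul, br_E_E C hγ hδ, if_pos h1]
      have h3 : γ + δ = 0 := by rw [h1]; abel
      rw [h3, E_eq_zero C h0, smul_zero, zero_sub, br_neg_right]
      have h4 : br C (E C β) (ht C γ) = -(ev C β (fun i => (γ i : F))) • (E C β : Lm C F) := br_E_H C hβ _
      rw [h4, ev_coroot, h]
      simp
    · rw [if_neg h1, zero_smul, add_zero, br_E_E C hγ hδ, if_neg h1, sub_zero, br_smul_right]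
      by_cases h2 : δ = -β
      · rw [if_pos h2, one_smul]
        have h3 : ip C γ δ = -1 := by
          rw [h2, ip_neg_right, ip_comm, h]
        have h4 : ip C (γ + δ) (γ + δ) = 2 := (add_root_iff hγ hδ).2 h3
        have h5 : γ + δ ≠ -β := by
          intro e
          rw [h2] at e
          have h6 : γ = 0 := by
            have := congrArg (fun x => x + β) e
            simpa using this
          rw [h6] at hγ
          exact h0 hγ
        rw [br_E_E C hβ h4, if_neg h5, sub_zero]
        have h6 : β + (γ + δ) = γ := by rw [h2]; abel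
        rw [h6, smul_smul]
        have h7 : sg C γ δ * sg C β (γ + δ) = 1 := by
          rw [h2, sg_neg_right, sg_add_right, sg_neg_right, sg_self C hβ]
          have h8 : ¬ Even (ip C β γ) := by rw [h]; decide
          rw [sg_comm_odd C β γ h8]
          have h9 := sg_mul_self C β γ
          linear_combination h9
        have h10 : (sg C γ δ : F) * (sg C β (γ + δ) : F) = 1 := by
          exact_mod_cast congrArg (Int.cast : ℤ → F) h7
        rw [h10, one_smul]
      · rw [if_neg h2, zero_smul]
        by_cases h3 : ip C (γ + δ) (γ + δ) = 2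
        · have h4 : γ + δ ≠ -β := by
            intro e
            have h5 := (add_root_iff hγ hδ).1 h3
            have h6 : δ = -β - γ := by rw [← e]; abel
            rw [h6, ip_sub_right, ip_neg_right, ip_comm C γ β, h, hγ] at h5
            omega
          rw [br_E_E C hβ h3, if_neg h4, sub_zero]
          have h5 : ip C (β + (γ + δ)) (β + (γ + δ)) ≠ 2 := by
            intro e
            have h6 := (add_root_iff hβ h3).1 e
            rw [ip_add_right, h] at h6
            exact h2 (eq_neg_of_ip_eq_neg_two hβ hδ (by omega))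
          rw [E_eq_zero C h5]
          simp
        · rw [E_eq_zero C h3]
          simp
  · intro g
    rw [br_E_H C hγ, br_smul_right, COL_br C hβ hγ (by omega), fm_E_H C hβ, fm_E_H C hγ]
    simp

theorem COL (hJAC : JAC_stmt) (hSTR : STR_stmt) (hINV : INV_stmt) (hXAU : XAU_stmt) : COL_stmt := by
  intro n C _ F _ β γ hβ hγ
  have hfb : ∀ (β γ : Fin n → ℤ), ip C β β = 2 → ip C γ γ = 2 → 0 ≤ ip C β γ → ∀ v : Lm C F,
      fm C (E C β) (br C (E C γ) v) = 0 := by
    intro β γ hβ hγ h v
    have h1 := (hINV n C F).1 γ hγ (E C β) v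
    rw [COL_br C hγ hβ (by rw [ip_comm]; exact h), fm_zero_left] at h1
    exact neg_eq_zero.1 h1.symm
  have hxx : ∀ (β γ : Fin n → ℤ), ip C β β = 2 → ip C γ γ = 2 → 0 ≤ ip C β γ → ∀ (b c : F) (v : Lm C F),
      xe C (E C β) b (xe C (E C γ) c v) = v + c • br C (E C γ) v + (c ^ 2 * fm C (E C γ) v) • E C γ +
        b • br C (E C β) v + (b * c) • br C (E C β) (br C (E C γ) v) + (b ^ 2 * fm C (E C β) v) • E C β := by
    intro β γ hβ hγ h b c v
    unfold xe
    simp only [br_add_right, br_smul_right, fm_add_right, fm_smul_right, COL_br C hβ hγ h, COL_fm C hβ hγ h, hfb β γ hβ hγ h,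
      mul_zero, add_zero, smul_zero, smul_add, smul_smul]
    abel
  constructor
  · intro h
    refine ⟨fun b c t v => ?_, fun v => COL_bb C hβ hγ h v⟩
    rw [hxx β γ hβ hγ (by omega), COL_bb C hβ hγ h]
    unfold xe
    simp only [br_add_left, br_smul_left, fm_add_left, fm_smul_left, smul_add, smul_smul]
    module
  · intro h b c v
    have h' : 0 ≤ ip C γ β := by rw [ip_comm]; exact h
    rw [hxx β γ hβ hγ h, hxx γ β hγ hβ h']
    have h1 := hJAC n C F β hβ (E C γ) v
    rw [COL_br C hβ hγ h, br_zero_left, zero_add] at h1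
    rw [h1, mul_comm c b]
    abel

end Pool.Agent.EXC
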