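import Pool.Agent.helper17.EXC.Spec

set_option autoImplicit false

open Finset

namespace Pool.Agent.EXC

/-- the number of nonzero vectors of a nonzero subspace is `-1` in `F` -/
theorem COR_cnt (F : Type) [Field F] [Fintype F] [DecidableEq F] [Fintype {v : Fin 3 → F // v ≠ 0}] (S : Submodule F (Fin 3 → F))
    [DecidablePred (· ∈ S)] (h : 1 ≤ Module.finrank F S) :
    ∑ u : {v : Fin 3 → F // v ≠ 0}, (if (u : Fin 3 → F) ∈ S then (1 : F) else 0) = -1 := by
  classical
  have h1 : ∑ u : Fin 3 → F, (if u ∈ S then (1 : F) else 0) = 0 := by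
    rw [Finset.sum_boole]
    have h2 : ((univ : Finset (Fin 3 → F)).filter (fun u => u ∈ S)).card = Fintype.card S := by
      rw [Fintype.card_subtype]
    rw [h2, Module.card_eq_pow_finrank (K := F) (V := S), Nat.cast_pow, FiniteField.cast_card_eq_zero]
    exact zero_pow (by omega)
  rw [Fintype.sum_eq_add_sum_subtype_ne _ (0 : Fin 3 → F), if_pos S.zero_mem] at h1
  have h4 := eq_neg_of_add_eq_zero_right h1
  rw [← h4]
  refine Finset.sum_congr ?_ fun x _ => rfl
  ext x
  simp

theorem COR_ker (F : Type) [Field F] [Finite F] (g : (Fin 3 → F) →+ F) (K : Submodule F (Fin 3 → F))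
    (hK : ∀ w, w ∈ K ↔ g w = 0) : 2 ≤ Module.finrank F K := by
  classical
  have := Fintype.ofFinite F
  have h1 : Nat.card (Fin 3 → F) = Nat.card ((Fin 3 → F) ⧸ g.ker) * Nat.card g.ker :=
    AddSubgroup.card_eq_card_quotient_mul_card_addSubgroup g.ker
  have h2 : Nat.card ((Fin 3 → F) ⧸ g.ker) ≤ Nat.card F :=
    Nat.card_le_card_of_injective _ (QuotientAddGroup.kerLift_injective g)
  have h3 : Nat.card g.ker = Nat.card K := by
    refine Nat.card_congr (Equiv.subtypeEquivRight fun w => ?_)
    rw [AddMonoidHom.mem_ker]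
    exact (hK w).symm
  have h4 : Nat.card K = Nat.card F ^ Module.finrank F K := by
    rw [Nat.card_eq_fintype_card, Nat.card_eq_fintype_card, Module.card_eq_pow_finrank (K := F) (V := K)]
  have h5 : Nat.card (Fin 3 → F) = Nat.card F ^ 3 := by
    rw [Nat.card_fun]
    simp
  have h6 : 1 < Nat.card F := Finite.one_lt_card
  by_contra hlt
  push Not at hlt
  have h7 : Nat.card F ^ Module.finrank F K ≤ Nat.card F ^ 1 := Nat.pow_le_pow_right (by omega) (by omega)
  have h8 : Nat.card F ^ 3 ≤ Nat.card F * Nat.card F := by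
    rw [← h5, h1, h3, h4]
    exact Nat.mul_le_mul h2 (by simpa using h7)
  have h9 : Nat.card F * Nat.card F < Nat.card F ^ 3 := by
    have : Nat.card F ^ 3 = Nat.card F * Nat.card F * Nat.card F := by ring
    rw [this]
    exact lt_mul_of_one_lt_right (by positivity) h6
  omega

theorem COR : COR_stmt := by
  intro F W _ _ _ _ φ B _ hφ
  classical
  have := Fintype.ofFinite F
  by_contra hno
  push Not at hno
  -- the subspaces `K v = {w : B v (φ w) = 0}` and `L w = {v : B v (φ w) = 0}`
  let K : (Fin 3 → F) → Submodule F (Fin 3 → F) := fun v =>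
    { carrier := {w | B v (φ w) = 0}
      add_mem' := by
        intro a b ha hb
        change B v (φ (a + b)) = 0
        change B v (φ a) = 0 at ha
        change B v (φ b) = 0 at hb
        rw [map_add, map_add, ha, hb, add_zero]
      zero_mem' := by simp
      smul_mem' := by
        intro c w hw
        change B v (φ (c • w)) = 0
        change B v (φ w) = 0 at hw
        obtain ⟨c', hc'⟩ := hφ c w
        rw [hc', map_smul, hw, smul_zero] }
  let L : (Fin 3 → F) → Submodule F (Fin 3 → F) := fun w => LinearMap.ker (B.flip (φ w))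
  have hK : ∀ v w, w ∈ K v ↔ B v (φ w) = 0 := fun v w => Iff.rfl
  have hL : ∀ v w, v ∈ L w ↔ B v (φ w) = 0 := fun v w => by
    change v ∈ LinearMap.ker (B.flip (φ w)) ↔ _
    rw [LinearMap.mem_ker, LinearMap.flip_apply]
  have dK : ∀ v, 2 ≤ Module.finrank F (K v) := fun v =>
    COR_ker F ((B v).toAddMonoidHom.comp φ) (K v) fun w => Iff.rfl
  have dV : Module.finrank F (Fin 3 → F) = 3 := by simp
  have dL : ∀ w, 2 ≤ Module.finrank F (L w) := by
    intro w
    have h1 := LinearMap.finrank_range_add_finrank_ker (B.flip (φ w))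
    have h2 : Module.finrank F (LinearMap.range (B.flip (φ w))) ≤ 1 := by
      have := Submodule.finrank_le (LinearMap.range (B.flip (φ w)))
      rwa [Module.finrank_self] at this
    rw [dV] at h1
    change 2 ≤ Module.finrank F (LinearMap.ker (B.flip (φ w)))
    omega
  have dKL : ∀ v w, 1 ≤ Module.finrank F (K v ⊓ L w : Submodule F (Fin 3 → F)) := by
    intro v w
    have h1 := Submodule.finrank_sup_add_finrank_inf_eq (K v) (L w)
    have h2 := Submodule.finrank_le (K v ⊔ L w)
    rw [dV] at h2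
    have h3 := dK v
    have h4 := dL w
    omega
  let M : Matrix {v : Fin 3 → F // v ≠ 0} {v : Fin 3 → F // v ≠ 0} F :=
    Matrix.of fun v w => if B v.1 (φ w.1) = 0 then 1 else 0
  let N : Matrix {v : Fin 3 → F // v ≠ 0} {v : Fin 3 → F // v ≠ 0} F := Matrix.of fun v w => M v w - 1
  have c1 : ∀ v w : {v : Fin 3 → F // v ≠ 0}, ∑ u, M v u * M u w = -1 := by
    intro v w
    rw [← COR_cnt F (K v.1 ⊓ L w.1) (dKL v.1 w.1)]
    refine Finset.sum_congr rfl fun u _ => ?_
    change (if B v.1 (φ u.1) = 0 then (1 : F) else 0) * (if B u.1 (φ w.1) = 0 then 1 else 0) = _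
    have e : (u : Fin 3 → F) ∈ K v.1 ⊓ L w.1 ↔ B v.1 (φ u.1) = 0 ∧ B u.1 (φ w.1) = 0 := by
      rw [Submodule.mem_inf, hK, hL]
    by_cases h1 : B v.1 (φ u.1) = 0 <;> by_cases h2 : B u.1 (φ w.1) = 0 <;> simp [e, h1, h2]
  have c2 : ∀ v : {v : Fin 3 → F // v ≠ 0}, ∑ u, M v u = -1 := by
    intro v
    rw [← COR_cnt F (K v.1) (by have := dK v.1; omega)]
    rfl
  have c3 : ∀ w : {v : Fin 3 → F // v ≠ 0}, ∑ u, M u w = -1 := by
    intro w
    rw [← COR_cnt F (L w.1) (by have := dL w.1; omega)]
    refine Finset.sum_congr rfl fun u _ => ?_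
    change (if B u.1 (φ w.1) = 0 then (1 : F) else 0) = _
    simp only [hL]
  have c4 : ∑ _u : {v : Fin 3 → F // v ≠ 0}, (1 : F) = -1 := by
    have := COR_cnt F ⊤ (by rw [finrank_top, dV]; omega)
    simpa using this
  have hNN : N * N = 0 := by
    ext v w
    rw [Matrix.mul_apply]
    change ∑ u, (M v u - 1) * (M u w - 1) = 0
    have e : ∀ u, (M v u - 1) * (M u w - 1) = M v u * M u w - M v u - M u w + 1 := fun u => by ring
    rw [Finset.sum_congr rfl fun u _ => e u, Finset.sum_add_distrib, Finset.sum_sub_distrib, Finset.sum_sub_distrib, c1, c2, c3, c4]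
    ring
  have hnil : IsNilpotent N := ⟨2, by rw [pow_two, hNN]⟩
  have htr := (Matrix.isNilpotent_trace_of_isNilpotent hnil).eq_zero
  have htr2 : N.trace = 1 := by
    have e : ∀ v : {v : Fin 3 → F // v ≠ 0}, N v v = -1 := by
      intro v
      change (if B v.1 (φ v.1) = 0 then (1 : F) else 0) - 1 = -1
      rw [if_neg (hno v.1 v.2)]
      ring
    change ∑ v, N v v = 1
    rw [Finset.sum_congr rfl fun v _ => e v, Finset.sum_neg_distrib, c4]
    ring
  rw [htr] at htr2
  exact zero_ne_one htr2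

end Pool.Agent.EXC
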